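import Pool.Agent.Q20.Cp.Field

/-!
# The noncommutative Kunneth conjecture does not depend on the coefficient field

`C` is a `ℚ`-linear rigid symmetric monoidal category in which every endomorphism of the unit is a
rational multiple of the identity, with a symmetric monoidal additive functor to finite dimensional
super vector spaces over a field `K`, for example the category of noncommutative Chow motives over
a field `K` of characteristic zero, with periodic cyclic homology. The Kunneth projectors of an
object `M` are algebraic with rational coefficients if and only if they are algebraic with
coefficients in `F`, where `F` is a subfield of any extension `L` of `K` (the case `L = K` is that
of a coefficient field contained in the base field, the case `F = L` that of a coefficient field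
which contains the base field), if and only if the subspaces of the realisation of `M` stable under
all endomorphisms of `M` are graded, and if and only if even vectors can be separated from odd
vectors.
-/

set_option autoImplicit false

open CategoryTheory MonoidalCategory

namespace Pool.Agent.Results.MP_eadf0f_ag.CoefficientField

open Pool.Agent.Y112.SR Q20.Cp

universe v u w w' w''

theorem result {C : Type u} [Category.{v} C] [Preadditive C] [Linear ℚ C] [MonoidalCategory C]
    [SymmetricCategory C] [RightRigidCategory C] (hC : RationalUnit C)
    {K : Type w} [Field K] (R : SuperRealisation C K) (M : C)
    (F : Type w') (L : Type w'') [Field F] [Field L] [Algebra K L] [Algebra F L] :
    List.TFAE [R.CPlus M, AlgebraicOver R F L M, StableGraded R M, PointwiseSeparated R M] :=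
  field_tfae R hC M F L

end Pool.Agent.Results.MP_eadf0f_ag.CoefficientField
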