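import Pool.Agent.Q34.CF.Pair

/-!
# The noncommutative Kunneth conjecture for curves in characteristic `p > 2`

The problem allows every base field `k`, with a coefficient field `F ⊇ k` or `F ⊆ k`. Let `k` have
characteristic `p > 2` and let `X` be a smooth projective geometrically irreducible curve over `k`.
The Kunneth projectors of `perf(X)` are algebraic if and only if `X` has a zero-cycle of degree prime
to `p`. Over every discretely valued field of characteristic `p > 2` there are curves without such
zero-cycles, so that the conjecture fails over these fields, for all coefficient fields.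

The reason: the trace of the endomorphism of the motive of `perf(X)` given by an element of
`K_0(X × X)` is the Euler characteristic of its restriction to the diagonal. If the degrees of all
zero-cycles are divisible by `p`, then so is `2 g - 2`, the degree of the canonical divisor, and by the
theorem of Riemann and Roch all these traces are zero in `F`. Then the supertraces of the
realisations of all endomorphisms are zero, but the supertrace of `π⁺` is `dim HP⁺ = 2 ≠ 0`.
Conversely, the classes of the structure sheaf and of a zero-cycle of degree `n` prime to `p` split off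
two copies of the unit, whose realisation is the whole even part.

The curve: let `k` be the field of fractions of a Dedekind domain (which is not a field) and `s ∈ k` an
element of order one at some prime. The plane curve

`X ^ p + s Y ^ p + s ^ 2 Z ^ p + s ^ 2 (X ^ (p - 1) Y + Y ^ (p - 1) Z) = 0`

is smooth, and it has no points over extension fields of `k` of degree prime to `p`: such an extension
has a discrete valuation whose ramification index is prime to `p`, the values of the first three terms
are different modulo `p`, and the other two terms are smaller than the largest of these.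
-/

set_option autoImplicit false

open CategoryTheory MonoidalCategory MvPolynomial Module

namespace Pool.Agent.Results.MP_eadf0f_ag.CurvesInPositiveCharacteristic

open Pool.Agent.Y112.SR Pool.Agent.Q34.CF

universe u v w x y z

/-- The known properties of the endomorphisms of the noncommutative motive `M` of `perf(X)` (with
coefficients in `F`), where `X` is a smooth projective geometrically irreducible curve of genus `g` and
`D` is the group of the degrees of the zero-cycles on `X`:

* the endomorphisms of `M` are the `F`-linear combinations of the classes `cl x` of the elements `x` of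
  `K₀ = K_0(X × X)`;
* the trace of `cl x` is the Euler characteristic of the restriction of `x` to the diagonal, which by
  the theorem of Riemann and Roch is `deg x + rk x * (1 - g)`, where `deg x` and `rk x` are the degree
  and the rank of this restriction;
* the degree `2 g - 2` of the canonical divisor is in `D`. -/
structure Correspondences (D : AddSubgroup ℤ) (g : ℤ) {C : Type w} [Category.{v} C]
    [Preadditive C] [MonoidalCategory C] [SymmetricCategory C] [RightRigidCategory C]
    (F : Type x) [Field F] [Linear F C] (M : C) where
  /-- the group `K_0(X × X)` -/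
  K₀ : Type z
  [group : AddCommGroup K₀]
  /-- the class of an element of `K_0(X × X)` -/
  cl : K₀ →+ (M ⟶ M)
  /-- the rank of the restriction to the diagonal -/
  rk : K₀ →+ ℤ
  /-- the degree of the restriction to the diagonal -/
  deg : K₀ →+ ℤ
  span : ∀ f : M ⟶ M, f ∈ Submodule.span F (Set.range cl)
  deg_mem : ∀ x : K₀, deg x ∈ D
  trace : ∀ x : K₀, tr (cl x) = (deg x + rk x * (1 - g)) • 𝟙 (𝟙_ C)
  canonical : 2 * g - 2 ∈ D

/-- The structure sheaf `one` and the zero-cycles `pt n` of degree `n ∈ D` of the curve `X`, elements
of `K_0(X) = Hom(1, M) = Hom(M, 1)`: their products (Euler characteristics of tensor products) are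
`1 - g`, `n`, `n`, `0`. -/
structure ZeroCycles (D : AddSubgroup ℤ) (g : ℤ) {C : Type w} [Category.{v} C]
    [Preadditive C] [MonoidalCategory C] (M : C) where
  /-- the class of the structure sheaf -/
  one : 𝟙_ C ⟶ M
  /-- the class of the structure sheaf -/
  one' : M ⟶ 𝟙_ C
  /-- the class of a zero-cycle of degree `n` -/
  pt : D → (𝟙_ C ⟶ M)
  /-- the class of a zero-cycle of degree `n` -/
  pt' : D → (M ⟶ 𝟙_ C)
  one_one : one ≫ one' = (1 - g) • 𝟙 (𝟙_ C)
  one_pt : ∀ n : D, one ≫ pt' n = (n : ℤ) • 𝟙 (𝟙_ C)
  pt_one : ∀ n : D, pt n ≫ one' = (n : ℤ) • 𝟙 (𝟙_ C)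
  pt_pt : ∀ m n : D, pt m ≫ pt' n = 0

/-- The dimension of the even part, where `P` is the grading operator: `1` on the even part and `-1`
on the odd part. -/
noncomputable def evenDim {E : Type y} [Field E] {V : Type y} [AddCommGroup V] [Module E V]
    (P : V →ₗ[E] V) : ℕ :=
  finrank E (LinearMap.ker (P - 1))

/-- The known properties of the noncommutative motive `M` of `perf(X)` and of its realisation: those in
`Correspondences` and `ZeroCycles`, and the even part of the realisation, `H^0(X) ⊕ H^2(X)`, has
dimension two. -/
structure CurveMotive (D : AddSubgroup ℤ) (g : ℤ) {C : Type w} [Category.{v} C] [Preadditive C]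
    [MonoidalCategory C] [SymmetricCategory C] [RightRigidCategory C] (F : Type x) [Field F]
    [Linear F C] {E : Type y} [Field E] (R : SuperRealisation C E) (M : C) where
  /-- the endomorphisms -/
  cor : Correspondences.{v, w, x, z} D g F M
  /-- the zero-cycles -/
  cyc : ZeroCycles D g M
  even : evenDim (R.par M).hom = 2

section

variable {C : Type w} [Category.{v} C] [Preadditive C] [MonoidalCategory C] [SymmetricCategory C]
  {E : Type y} [Field E] (R : SuperRealisation C E) {M : C}

/-- The Kunneth projector `π⁺` of `M`. -/
noncomputable def plus (M : C) : R.H.obj M ⟶ R.H.obj M := (2⁻¹ : E) • (𝟙 _ + R.par M)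

/-- The Kunneth projector `π⁻` of `M`. -/
noncomputable def minus (M : C) : R.H.obj M ⟶ R.H.obj M := (2⁻¹ : E) • (𝟙 _ - R.par M)

/-- The operator `T` of the realisation of `M` is algebraic: it is the realisation of an endomorphism
of `M`. -/
def IsAlgebraic (T : R.H.obj M ⟶ R.H.obj M) : Prop := ∃ f : M ⟶ M, R.H.map f = T

/-- The operator `T` is an `E`-linear combination of realisations of endomorphisms of `M`. -/
def IsCombination (T : R.H.obj M ⟶ R.H.obj M) : Prop :=
  ∃ (n : ℕ) (c : Fin n → E) (f : Fin n → (M ⟶ M)), T = ∑ i, c i • R.H.map (f i)

end

/-- The criterion for the motives of curves, with coefficients in the field `F`: the following are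
equivalent: `π⁺` is algebraic; `π⁻` is algebraic; `π⁺` is an `E`-linear combination of realisations of
endomorphisms of `M`; there is a zero-cycle of degree prime to `p`. -/
def Criterion (p : ℕ) (C : Type w) [Category.{v} C] [Preadditive C] [MonoidalCategory C]
    [SymmetricCategory C] [RightRigidCategory C] (F : Type x) [Field F] [Linear F C] (E : Type y)
    [Field E] : Prop :=
  ∀ (R : SuperRealisation C E) (M : C) (D : AddSubgroup ℤ) (g : ℤ)
    (_ : CurveMotive.{v, w, x, y, z} D g F R M),
    List.TFAE [
      IsAlgebraic R (plus R M),
      IsAlgebraic R (minus R M),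
      IsCombination R (plus R M),
      ∃ n ∈ D, ¬ (p : ℤ) ∣ n]

/-- The group generated by the degrees `[L : k]` of the finite extension fields `L` of `k` such that
the plane curve `G = 0` has a point over `L`; this is the group of the degrees of the zero-cycles on
the curve. -/
def degrees {k : Type u} [Field k] (G : MvPolynomial (Fin 3) k) : AddSubgroup ℤ :=
  AddSubgroup.closure {n | ∃ m : ℕ, HasPoint G m ∧ n = m}

/-- **The noncommutative Kunneth conjecture for curves in characteristic `p > 2`.** Let `p ≠ 2` be a
prime number.

(1) Let `F` and `E` be fields of characteristic `p` with a homomorphism `F → E`, `C` an `F`-linear rigid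
symmetric monoidal category (noncommutative Chow motives over `k` with coefficients in `F`), `R` a
symmetric monoidal functor from `C` to finite dimensional super vector spaces over `E` (periodic cyclic
homology; `E` is the larger one of `k` and `F`), and `M` the motive of `perf(X)`, `X` a curve
(`CurveMotive`). Then the following are equivalent: `π⁺` is algebraic; `π⁻` is algebraic; `π⁺` is an
`E`-linear combination of realisations of endomorphisms of `M`; `X` has a zero-cycle of degree prime
to `p`.

(2) Let `k` be the field of fractions of a Dedekind domain `A` which is not a field, of characteristic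
`p`. There is a smooth plane curve of degree `p` over `k` all of whose zero-cycles have degrees
divisible by `p`. -/
theorem result (p : ℕ) (hp : p.Prime) (hp2 : p ≠ 2) :
    (∀ (C : Type w) [Category.{v} C] [Preadditive C] [MonoidalCategory C]
      [MonoidalPreadditive C] [SymmetricCategory C] [RightRigidCategory C]
      (F : Type x) [Field F] [CharP F p] [Linear F C] [MonoidalLinear F C] (E : Type y) [Field E]
      (_ : F →+* E), Criterion.{v, w, x, y, z} p C F E) ∧
    (∀ (A : Type v) (k : Type u) [CommRing A] [IsDedekindDomain A] (_ : ¬ IsField A) [Field k]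
      [Algebra A k] [IsFractionRing A k] [CharP k p],
      ∃ G : MvPolynomial (Fin 3) k, G.IsHomogeneous p ∧ IsSmooth G ∧
        ∀ n ∈ degrees G, (p : ℤ) ∣ n) := by
  constructor
  · intro C _ _ _ _ _ _ F _ _ _ _ E _ iFE R M D g X
    have hpE : (p : E) = 0 := by
      rw [← map_natCast iFE, CharP.cast_eq_zero, map_zero]
    have hpF : (p : F) = 0 := CharP.cast_eq_zero F p
    have h2 : (2 : E) ≠ 0 := by
      intro h
      obtain ⟨m, hm⟩ := (hp.eq_two_or_odd'.resolve_left hp2)
      have h1 : (1 : E) = 0 := by
        have h3 : (p : E) = 2 * m + 1 := by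
          rw [hm]
          push_cast
          ring
        rw [hpE, h, zero_mul, zero_add] at h3
        exact h3.symm
      exact one_ne_zero h1
    have hint : ∀ (n : ℤ), n • 𝟙 (𝟙_ C) = (n : F) • 𝟙 (𝟙_ C) := fun n =>
      (Int.cast_smul_eq_zsmul F n _).symm
    have h5 : 𝟙 (R.H.obj M) = (2⁻¹ : E) • (𝟙 _ + 𝟙 _) := by
      rw [← two_smul E (𝟙 (R.H.obj M)), smul_smul, inv_mul_cancel₀ h2, one_smul]
    tfae_have 1 → 2 := by
      rintro ⟨f, hf⟩
      refine ⟨𝟙 M - f, ?_⟩
      rw [Functor.map_sub, CategoryTheory.Functor.map_id, hf, plus, minus]
      nth_rewrite 1 [h5]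
      rw [← smul_sub]
      congr 1
      abel
    tfae_have 2 → 3 := by
      rintro ⟨f, hf⟩
      refine ⟨1, fun _ => 1, fun _ => 𝟙 M - f, ?_⟩
      rw [Fin.sum_univ_one, one_smul, Functor.map_sub, CategoryTheory.Functor.map_id, hf, plus,
        minus]
      nth_rewrite 2 [h5]
      rw [← smul_sub]
      congr 1
      abel
    tfae_have 3 → 4 := by
      intro hcomb
      have hmem : piPlus R M ∈ alg R M := by
        obtain ⟨n, c, f, hT⟩ := hcomb
        have h6 : piPlus R M = ∑ i, c i • (R.H.map (f i)).hom := by
          have h7 := congrArg ModuleCat.Hom.hom hT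
          rw [ModuleCat.hom_sum] at h7
          exact h7
        rw [h6]
        exact Submodule.sum_mem _ fun i _ => Submodule.smul_mem _ _
          (Submodule.subset_span ⟨f i, rfl⟩)
      by_contra hcon
      push Not at hcon
      have h5 : (p : ℤ) ∣ (1 - g) := by
        have h6 := hcon _ X.cor.canonical
        have h7 : (p : ℤ) ∣ 2 * (1 - g) := by
          rw [show 2 * (1 - g) = -(2 * g - 2) by ring]
          exact (dvd_neg).2 h6
        have h8 : IsCoprime (p : ℤ) 2 := by
          rw [Int.isCoprime_iff_gcd_eq_one]
          have := (Nat.coprime_primes hp Nat.prime_two).2 hp2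
          exact_mod_cast this
        exact h8.dvd_of_dvd_mul_left h7
      have htr : ∀ f : M ⟶ M, tr f = 0 := by
        intro f
        induction X.cor.span f using Submodule.span_induction with
        | mem f hf =>
          obtain ⟨x, rfl⟩ := hf
          obtain ⟨c, hc⟩ := dvd_add (hcon _ (X.cor.deg_mem x)) (h5.mul_left (X.cor.rk x))
          rw [X.cor.trace x, hc, hint]
          push_cast
          rw [hpF, zero_mul, zero_smul]
        | zero => simpa using tr_smul (0 : F) (0 : M ⟶ M)
        | add f g _ _ hf hg => rw [tr_add, hf, hg, add_zero]
        | smul c f _ hf => rw [tr_smul, hf, smul_zero]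
      refine (not_mem_alg R h2 M htr ?_).1 hmem
      have h9 : finrank E (LinearMap.ker ((R.par M).hom - 1)) = 2 := X.even
      rw [h9]
      exact_mod_cast h2
    tfae_have 4 → 1 := by
      rintro ⟨n, hn, hpn⟩
      have hn0 : (n : F) ≠ 0 := by
        rwa [Ne, CharP.intCast_eq_zero_iff F p]
      obtain ⟨e, he⟩ := exists_plus R h2 X.cyc.one (X.cyc.pt ⟨n, hn⟩) X.cyc.one' (X.cyc.pt' ⟨n, hn⟩) ((1 - g : ℤ) : F)
        (n : F) hn0 (by rw [X.cyc.one_one, hint]) (by rw [X.cyc.one_pt, hint])
        (by rw [X.cyc.pt_one, hint]) (X.cyc.pt_pt _ _) X.even
      exact ⟨e, ModuleCat.hom_ext he⟩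
    tfae_finish
  · intro A k _ _ hA _ _ _ _
    obtain ⟨P⟩ : Nonempty (IsDedekindDomain.HeightOneSpectrum A) := by
      obtain ⟨I, hI⟩ := Ring.not_isField_iff_exists_prime.1 hA
      exact ⟨⟨I, hI.2, hI.1⟩⟩
    obtain ⟨s, hs⟩ := P.valuation_exists_uniformizer k
    have hs0 : s ≠ 0 := by
      rintro rfl
      rw [map_zero] at hs
      exact WithZero.exp_ne_zero hs.symm
    have hp3 : 3 ≤ p := by
      have := hp.two_le
      omega
    refine ⟨form p s, form_hom hp.pos s, form_smooth hp3 hs0, fun n hn => ?_⟩
    have h4 : degrees (form p s) ≤ AddSubgroup.zmultiples (p : ℤ) := by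
      rw [degrees, AddSubgroup.closure_le]
      rintro n ⟨m, hm, rfl⟩
      obtain ⟨c, rfl⟩ := form_points hp hp2 A P hs m hm
      exact ⟨c, by push_cast; rw [zsmul_eq_mul, mul_comm]; rfl⟩
    exact Int.mem_zmultiples_iff.1 (h4 hn)

end Pool.Agent.Results.MP_eadf0f_ag.CurvesInPositiveCharacteristic
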