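import Pool.Agent.Q57.NL.Num
import Pool.Agent.Q55.Lr.Seq

/-!
# The Kunneth projector of a noncommutative motive is algebraic, or as far as possible from the
algebraic operators on the tensor powers

`C` is a `ℚ`-linear rigid symmetric monoidal category in which every endomorphism of the unit is a
rational multiple of the identity, with a symmetric monoidal additive functor `H` to finite
dimensional super vector spaces over a field `K`, for example the category of noncommutative Chow
motives over a field of characteristic zero with periodic cyclic homology.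

For an object `M` let `b` be the dimension of `H(M)`, and `rankDist M` the smallest rank of a
difference `π⁺ - u`, where `π⁺` is the projector onto the even part of `H(M)`, and `u` is a
`K`-linear combination of realisations of endomorphisms of `M`. The theorem:

* `rankDist M = 0` if and only if `π⁺` is algebraic (with rational coefficients).
* Either `π⁺` is algebraic for `M` and `rankDist (M ^ n) = 0` for all tensor powers, or it is not, and
  `b ^ n ≤ (n + 1) ^ (b ^ 2) rankDist (M ^ n)` for all `n ≥ 1`; in particular
  `rankDist (M ^ n) ^ (1 / n)` converges to `b`, the largest possible rate.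

So `π⁺` is algebraic for `M` as soon as for ONE `n` there is a `K`-linear combination `u` of
realisations of endomorphisms of `M ^ n` with `rank (π⁺ - u) < b ^ n / (n + 1) ^ (b ^ 2)`.

The proof: the operators given by the permutations of the factors of `M ^ n` span a semisimple algebra
of dimension at least `b ^ (2 n) / (n + 1) ^ (b ^ 2)`. If `π⁺ - u` has a smaller rank than
`b ^ n / (n + 1) ^ (b ^ 2)`, then it is killed by an idempotent `e ≠ 0` of this algebra, and the partial
traces of the conjugates of `e (2 π⁺ - 1) = e (2 u - 1)` show that `π⁺` is algebraic for `M`.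
-/

set_option autoImplicit false

open CategoryTheory MonoidalCategory Filter Topology

namespace Pool.Agent.Results.MP_eadf0f_ag.RankDistance

open Pool.Agent.Y112.SR Pool.Agent.Y112.KD Q20.Cp Pool.Agent.Q57.NL

universe v u w

theorem result {C : Type u} [Category.{v} C] [Preadditive C] [Linear ℚ C] [MonoidalCategory C]
    [MonoidalPreadditive C] [MonoidalLinear ℚ C] [SymmetricCategory C] [RightRigidCategory C]
    (hC : RationalUnit C) {K : Type w} [Field K] (R : SuperRealisation C K) (M : C) :
    (rankDist R M = 0 ↔ R.CPlus M) ∧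
    ((R.CPlus M ∧ ∀ n, rankDist R (tp M n) = 0) ∨
      (¬ R.CPlus M ∧
        (∀ n, 1 ≤ n → Q20.Cp.dimH R M ^ n ≤
          (n + 1) ^ (Q20.Cp.dimH R M ^ 2) * rankDist R (tp M n)) ∧
        Tendsto (fun n : ℕ => (rankDist R (tp M (n + 1)) : ℝ) ^ ((1 : ℝ) / (n + 1))) atTop
          (𝓝 (Q20.Cp.dimH R M)))) := by
  refine ⟨rankDist_eq_zero R hC M, ?_⟩
  by_cases h : R.CPlus M
  · exact Or.inl ⟨h, fun n => (rankDist_eq_zero R hC _).2 (Pool.Agent.Y112.SC.cplus_tp R h n)⟩
  refine Or.inr ⟨h, fun n hn => rank_law R hC h hn, ?_⟩
  have hb : 1 ≤ Q20.Cp.dimH R M := by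
    by_contra h0
    have h1 := (num_bounds R hC M).2
    exact h ((rankDist_eq_zero R hC M).1 (by omega))
  refine Pool.Agent.Q55.Lr.tendsto_root (C := 2 ^ (Q20.Cp.dimH R M ^ 2))
    (N := Q20.Cp.dimH R M ^ 2) hb (fun m => ?_) (fun m => ?_)
  · rw [← dimH_tp]
    have := (num_bounds R hC (tp M (m + 1))).2
    omega
  · have h2 : (m + 1 + 1) ^ (Q20.Cp.dimH R M ^ 2) ≤
        2 ^ (Q20.Cp.dimH R M ^ 2) * (m + 1) ^ (Q20.Cp.dimH R M ^ 2) := by
      rw [← Nat.mul_pow]
      exact Nat.pow_le_pow_left (by omega) _
    calc Q20.Cp.dimH R M ^ m ≤ Q20.Cp.dimH R M ^ (m + 1) := Nat.pow_le_pow_right hb (by omega)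
      _ ≤ (m + 1 + 1) ^ (Q20.Cp.dimH R M ^ 2) * rankDist R (tp M (m + 1)) :=
          rank_law R hC h (by omega)
      _ ≤ _ := Nat.mul_le_mul_right _ h2

end Pool.Agent.Results.MP_eadf0f_ag.RankDistance
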