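import Pool.Agent.Q56.PM.Main

/-!
# One function of the parities of several factors decides the Kunneth conjecture for the factors

`C` is a `ℚ`-linear rigid symmetric monoidal category in which every endomorphism of the unit is
rational, with a symmetric monoidal additive functor `H` to finite dimensional super vector spaces
over a field `K`, for example the category `NChow(k)_ℚ` of noncommutative Chow motives of saturated
dg categories with periodic cyclic homology. Let `L = [M_0, …, M_{n-1}]` be objects. The space
`H(M_0 ⊗ ⋯ ⊗ M_{n-1})` is the direct sum of `2 ^ n` subspaces, the tensors of given parities of the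
factors; for a function `f` on the words of length `n` let `parOp R L f` be the operator which is
the scalar `f w` on the subspace of the word `w`.

Let `J` be the set of the letters on which `f` depends. Suppose that the `H(M_i)` with `i` in `J`
have an even and an odd part different from zero, and that for the other `i` the dimensions of the
even and the odd part of `H(M_i)` are different. If the ONE operator `parOp R L f` is algebraic with
coefficients in `K`, then the Kunneth projectors of ALL `M_i` with `i` in `J` are algebraic, and
conversely.
-/

set_option autoImplicit false

open CategoryTheory Limits MonoidalCategory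

namespace Pool.Agent.Results.MP_eadf0f_ag.SeveralFactors

open Pool.Agent.Y112.SR Pool.Agent.Y112.KD Pool.Agent.Y112.SC Q20.Cp Q56.PC Q56.PM

universe v u w

/-- **One function of the parities of the factors of a tensor product decides the Kunneth
conjecture for all the factors on which it depends.** -/
theorem result {C : Type u} [Category.{v} C] [Preadditive C] [Linear ℚ C] [MonoidalCategory C]
    [MonoidalPreadditive C] [MonoidalLinear ℚ C] [SymmetricCategory C] [RightRigidCategory C]
    {K : Type w} [Field K] (R : SuperRealisation C K) (hC : RationalUnit C) (L : List C)
    (f : List Bool → K)
    (hL : ∀ (i : ℕ) (hi : i < L.length), (Dep L.length f i → evenDim R L[i] ≠ 0 ∧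
      oddDim R L[i] ≠ 0) ∧ (¬ Dep L.length f i → evenDim R L[i] ≠ oddDim R L[i])) : List.TFAE [
    parOp R L f ∈ KAlg R (tens L),
    ∀ (i : ℕ) (hi : i < L.length), Dep L.length f i → R.CPlus L[i],
    ∀ g : List Bool → ℚ, (∀ i < L.length, Dep L.length g i → Dep L.length f i) →
      ∃ x : tens L ⟶ tens L, R.H.map x = parOp R L fun w => (g w : K)] :=
  several_tfae hC L f hL

end Pool.Agent.Results.MP_eadf0f_ag.SeveralFactors
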